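import Pool.Agent.H63.Col

/-!
# Functionals on cubic forms

A nonzero symmetric trilinear form on `ℂ²` is a combination of two cubes, or the polarisation of
`ℓ² ℓ'`.
-/

set_option autoImplicit false

namespace Pool.Agent.H64.Hyp4

open Pool.Agent.Results.MP_1fedf0_gt.CollinearPlusOne

/-- the symmetric trilinear form with coefficients `m` -/
def G (m : Fin 4 → ℂ) (a b c : ℂ × ℂ) : ℂ :=
  m 3 * (a.2 * b.2 * c.2) + m 2 * (a.1 * b.2 * c.2 + a.2 * b.1 * c.2 + a.2 * b.2 * c.1) +
    m 1 * (a.1 * b.1 * c.2 + a.1 * b.2 * c.1 + a.2 * b.1 * c.1) + m 0 * (a.1 * b.1 * c.1)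

theorem prod_erase {M : Type*} [CommMonoid M] (f : Fin 4 → M) (i : Fin 4) :
    ∏ j ∈ Finset.univ.erase i, f j =
      f (i.succAbove 0) * f (i.succAbove 1) * f (i.succAbove 2) := by
  have h : ∀ i : Fin 4, Finset.univ.erase i = Finset.univ.image i.succAbove := by decide
  rw [h i, Finset.prod_image (fun a _ b _ hab => Fin.succAbove_right_injective hab),
    Fin.prod_univ_three]

/-- a relation between the products gives a trilinear form vanishing on all triples -/
theorem exists_G (a : Fin 4 → Fin 4 → ℂ × ℂ) (g : Fin 4 → ℂ) (hg : g ≠ 0)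
    (h : ∀ t : ℂ × ℂ, t.2 ≠ 0 → ∑ i, g i * ∏ j ∈ Finset.univ.erase i, br t (a i j) = 0) :
    ∃ m : Fin 4 → ℂ, m ≠ 0 ∧ ∀ i : Fin 4,
      G m (a i (i.succAbove 0)) (a i (i.succAbove 1)) (a i (i.succAbove 2)) = 0 := by
  classical
  let A : Fin 4 → Fin 3 → ℂ × ℂ := fun i r => a i (i.succAbove r)
  let M : Matrix (Fin 4) (Fin 4) ℂ := fun i k =>
    ![(A i 0).1 * (A i 1).1 * (A i 2).1,
      (A i 0).1 * (A i 1).1 * (A i 2).2 + (A i 0).1 * (A i 1).2 * (A i 2).1 +
        (A i 0).2 * (A i 1).1 * (A i 2).1,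
      (A i 0).1 * (A i 1).2 * (A i 2).2 + (A i 0).2 * (A i 1).1 * (A i 2).2 +
        (A i 0).2 * (A i 1).2 * (A i 2).1,
      (A i 0).2 * (A i 1).2 * (A i 2).2] k
  have hP : ∀ z : ℂ, z ^ 3 * ∑ i, g i * M i 3 - z ^ 2 * ∑ i, g i * M i 2 +
      z * ∑ i, g i * M i 1 - ∑ i, g i * M i 0 = 0 := by
    intro z
    rw [← h (z, 1) one_ne_zero, Finset.mul_sum, Finset.mul_sum, Finset.mul_sum,
      ← Finset.sum_sub_distrib, ← Finset.sum_add_distrib, ← Finset.sum_sub_distrib]
    refine Finset.sum_congr rfl fun i _ => ?_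
    rw [prod_erase]
    simp only [M, A, br, Matrix.cons_val]
    ring
  have h0 := hP 0
  have h1 := hP 1
  have h2 := hP (-1)
  have h3 := hP 2
  have s0 : ∑ i, g i * M i 0 = 0 := by linear_combination -h0
  have s2 : ∑ i, g i * M i 2 = 0 := by linear_combination -(h1 + h2) / 2 - s0
  have s3 : ∑ i, g i * M i 3 = 0 := by linear_combination (h3 - (h1 - h2) + s0 + 4 * s2) / 6
  have s1 : ∑ i, g i * M i 1 = 0 := by linear_combination (h1 - h2) / 2 - s3
  have hdet : M.det = 0 := by
    rw [← Matrix.exists_vecMul_eq_zero_iff]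
    refine ⟨g, hg, ?_⟩
    funext k
    change ∑ i, g i * M i k = 0
    fin_cases k
    · exact s0
    · exact s1
    · exact s2
    · exact s3
  obtain ⟨m, hm, hM⟩ := Matrix.exists_mulVec_eq_zero_iff.2 hdet
  refine ⟨m, hm, fun i => ?_⟩
  have h4 := congrFun hM i
  simp only [Matrix.mulVec, dotProduct, Fin.sum_univ_four, Pi.zero_apply] at h4
  rw [← h4]
  simp only [M, A, G, Matrix.cons_val]
  ring

theorem G_ne (m : Fin 4 → ℂ) (hm : m ≠ 0) : ¬ ∀ a b c, G m a b c = 0 := by
  intro h
  apply hm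
  have h0 := h (1, 0) (1, 0) (1, 0)
  have h1 := h (1, 0) (1, 0) (0, 1)
  have h2 := h (1, 0) (0, 1) (0, 1)
  have h3 := h (0, 1) (0, 1) (0, 1)
  simp only [G] at h0 h1 h2 h3
  funext k
  fin_cases k
  · simpa using h0
  · simpa using h1
  · simpa using h2
  · simpa using h3

theorem exists_factor (q : Fin 3 → ℂ) : ∃ u v : ℂ × ℂ,
    q 0 = u.1 * v.1 ∧ q 1 = u.1 * v.2 + u.2 * v.1 ∧ q 2 = u.2 * v.2 := by
  by_cases h : q 0 = 0
  · exact ⟨(0, 1), (q 1, q 2), by simp [h], by simp, by simp⟩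
  · obtain ⟨δ, hδ⟩ := IsAlgClosed.exists_pow_nat_eq (q 1 ^ 2 - 4 * q 0 * q 2) (n := 2) two_pos
    refine ⟨(q 0, (q 1 + δ) / 2), (1, (q 1 - δ) / (2 * q 0)), by simp, ?_, ?_⟩
    · simp only
      field_simp
      ring
    · simp only
      field_simp
      linear_combination hδ

/-- normal forms of symmetric trilinear forms on `ℂ²` -/
theorem normal_form (m : Fin 4 → ℂ) (hm : m ≠ 0) : ∃ u v : ℂ × ℂ, br u v ≠ 0 ∧
    ((∃ A B : ℂ, (A ≠ 0 ∨ B ≠ 0) ∧ ∀ a b c, G m a b c =
        A * (br a v * br b v * br c v) + B * (br a u * br b u * br c u)) ∨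
      (∃ B : ℂ, B ≠ 0 ∧ ∀ a b c, G m a b c =
        B * (br a v * br b u * br c u + br a u * br b v * br c u + br a u * br b u * br c v))) := by
  have hdet : (!![m 0, m 1, m 2; m 1, m 2, m 3; 0, 0, 0] : Matrix (Fin 3) (Fin 3) ℂ).det = 0 := by
    rw [Matrix.det_fin_three]
    simp
  obtain ⟨q, hq, hM⟩ := Matrix.exists_mulVec_eq_zero_iff.2 hdet
  have e1 := congrFun hM 0
  have e2 := congrFun hM 1
  simp [Matrix.mulVec, dotProduct, Fin.sum_univ_three] at e1 e2
  obtain ⟨u, v, f0, f1, f2⟩ := exists_factor q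
  have huv : ∀ c, G m u v c = 0 := by
    intro c
    unfold G
    rw [f0, f1, f2] at e1 e2
    linear_combination c.2 * e2 + c.1 * e1
  by_cases hD : br u v = 0
  · have hu : u ≠ 0 := by
      rintro rfl
      apply hq
      funext k
      fin_cases k <;> simp [f0, f1, f2]
    have hv : v ≠ 0 := by
      rintro rfl
      apply hq
      funext k
      fin_cases k <;> simp [f0, f1, f2]
    have huu : ∀ c, G m u u c = 0 := by
      intro c
      have h1 := huv c
      unfold br at hD
      have k1 : u.1 * G m u v c = v.1 * G m u u c := by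
        unfold G
        linear_combination (m 3 * u.2 * c.2 + m 2 * (u.1 * c.2 + u.2 * c.1) + m 1 * u.1 * c.1) * hD
      have k2 : u.2 * G m u v c = v.2 * G m u u c := by
        unfold G
        linear_combination (-(m 2 * u.2 * c.2 + m 1 * (u.1 * c.2 + u.2 * c.1) +
          m 0 * u.1 * c.1)) * hD
      rw [h1, mul_zero] at k1 k2
      by_contra h2
      apply hv
      have k3 := (mul_eq_zero.1 k1.symm).resolve_right h2
      have k4 := (mul_eq_zero.1 k2.symm).resolve_right h2
      exact Prod.ext k3 k4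
    obtain ⟨w, hw⟩ : ∃ w : ℂ × ℂ, br u w ≠ 0 := by
      by_cases h : u.1 = 0
      · refine ⟨(1, 0), ?_⟩
        unfold br
        simp only [h]
        intro h2
        apply hu
        refine Prod.ext h ?_
        simpa using h2
      · refine ⟨(0, 1), ?_⟩
        unfold br
        simpa using h
    by_cases hB : G m u w w = 0
    · refine ⟨u, w, hw, Or.inl ⟨0, -(G m w w w / br u w ^ 3), ?_, ?_⟩⟩
      · by_contra hcon
        push Not at hcon
        apply G_ne m hm
        intro a b c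
        have key : br u w ^ 3 * G m a b c = -(br a u * br b u * br c u) * G m w w w := by
          have k1 := huu w
          have k2 := huu u
          unfold G br at *
          linear_combination
            ((a.1 * w.2 - a.2 * w.1) * (b.1 * w.2 - b.2 * w.1) * (c.1 * w.2 - c.2 * w.1)) * k2 -
            ((a.1 * w.2 - a.2 * w.1) * (b.1 * w.2 - b.2 * w.1) * (c.1 * u.2 - c.2 * u.1) +
              (a.1 * w.2 - a.2 * w.1) * (b.1 * u.2 - b.2 * u.1) * (c.1 * w.2 - c.2 * w.1) +
              (a.1 * u.2 - a.2 * u.1) * (b.1 * w.2 - b.2 * w.1) * (c.1 * w.2 - c.2 * w.1)) * k1 +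
            ((a.1 * w.2 - a.2 * w.1) * (b.1 * u.2 - b.2 * u.1) * (c.1 * u.2 - c.2 * u.1) +
              (a.1 * u.2 - a.2 * u.1) * (b.1 * w.2 - b.2 * w.1) * (c.1 * u.2 - c.2 * u.1) +
              (a.1 * u.2 - a.2 * u.1) * (b.1 * u.2 - b.2 * u.1) * (c.1 * w.2 - c.2 * w.1)) * hB
        have h3 : G m w w w = 0 := by
          have := hcon.2
          rw [neg_eq_zero, div_eq_zero_iff] at this
          exact this.resolve_right (pow_ne_zero 3 hw)
        rw [h3, mul_zero] at key
        exact (mul_eq_zero.1 key).resolve_left (pow_ne_zero 3 hw)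
      · intro a b c
        have key : br u w ^ 3 * G m a b c = -(br a u * br b u * br c u) * G m w w w := by
          have k1 := huu w
          have k2 := huu u
          unfold G br at *
          linear_combination
            ((a.1 * w.2 - a.2 * w.1) * (b.1 * w.2 - b.2 * w.1) * (c.1 * w.2 - c.2 * w.1)) * k2 -
            ((a.1 * w.2 - a.2 * w.1) * (b.1 * w.2 - b.2 * w.1) * (c.1 * u.2 - c.2 * u.1) +
              (a.1 * w.2 - a.2 * w.1) * (b.1 * u.2 - b.2 * u.1) * (c.1 * w.2 - c.2 * w.1) +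
              (a.1 * u.2 - a.2 * u.1) * (b.1 * w.2 - b.2 * w.1) * (c.1 * w.2 - c.2 * w.1)) * k1 +
            ((a.1 * w.2 - a.2 * w.1) * (b.1 * u.2 - b.2 * u.1) * (c.1 * u.2 - c.2 * u.1) +
              (a.1 * u.2 - a.2 * u.1) * (b.1 * w.2 - b.2 * w.1) * (c.1 * u.2 - c.2 * u.1) +
              (a.1 * u.2 - a.2 * u.1) * (b.1 * u.2 - b.2 * u.1) * (c.1 * w.2 - c.2 * w.1)) * hB
        field_simp
        linear_combination key
    · obtain ⟨lam, hlam⟩ : ∃ lam : ℂ, G m w w w + 3 * lam * G m u w w = 0 :=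
        ⟨-(G m w w w) / (3 * G m u w w), by field_simp; ring⟩
      refine ⟨u, (w.1 + lam * u.1, w.2 + lam * u.2), ?_, Or.inr ⟨G m u w w / br u w ^ 3, ?_, ?_⟩⟩
      · have : br u (w.1 + lam * u.1, w.2 + lam * u.2) = br u w := by unfold br; ring
        rw [this]; exact hw
      · exact div_ne_zero hB (pow_ne_zero 3 hw)
      · intro a b c
        have k1 := huu w
        have k2 := huu u
        have key : br u w ^ 3 * G m a b c = G m u w w *
            (br a (w.1 + lam * u.1, w.2 + lam * u.2) * br b u * br c u +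
              br a u * br b (w.1 + lam * u.1, w.2 + lam * u.2) * br c u +
              br a u * br b u * br c (w.1 + lam * u.1, w.2 + lam * u.2)) := by
          unfold G br at *
          linear_combination
            ((a.1 * w.2 - a.2 * w.1) * (b.1 * w.2 - b.2 * w.1) * (c.1 * w.2 - c.2 * w.1)) * k2 -
            ((a.1 * w.2 - a.2 * w.1) * (b.1 * w.2 - b.2 * w.1) * (c.1 * u.2 - c.2 * u.1) +
              (a.1 * w.2 - a.2 * w.1) * (b.1 * u.2 - b.2 * u.1) * (c.1 * w.2 - c.2 * w.1) +
              (a.1 * u.2 - a.2 * u.1) * (b.1 * w.2 - b.2 * w.1) * (c.1 * w.2 - c.2 * w.1)) * k1 -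
            ((a.1 * u.2 - a.2 * u.1) * (b.1 * u.2 - b.2 * u.1) * (c.1 * u.2 - c.2 * u.1)) * hlam
        field_simp
        linear_combination key
  · refine ⟨u, v, hD, Or.inl ⟨G m u u u / br u v ^ 3, -(G m v v v / br u v ^ 3), ?_, ?_⟩⟩
    · by_contra hcon
      push Not at hcon
      apply G_ne m hm
      intro a b c
      have h3 : G m u u u = 0 := by
        have := hcon.1
        rw [div_eq_zero_iff] at this
        exact this.resolve_right (pow_ne_zero 3 hD)
      have h4 : G m v v v = 0 := by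
        have := hcon.2
        rw [neg_eq_zero, div_eq_zero_iff] at this
        exact this.resolve_right (pow_ne_zero 3 hD)
      have key : br u v ^ 3 * G m a b c = (br a v * br b v * br c v) * G m u u u -
          (br a u * br b u * br c u) * G m v v v := by
        have k1 := huv u
        have k2 := huv v
        unfold G br at *
        linear_combination
          -((a.1 * v.2 - a.2 * v.1) * (b.1 * v.2 - b.2 * v.1) * (c.1 * u.2 - c.2 * u.1) +
            (a.1 * v.2 - a.2 * v.1) * (b.1 * u.2 - b.2 * u.1) * (c.1 * v.2 - c.2 * v.1) +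
            (a.1 * u.2 - a.2 * u.1) * (b.1 * v.2 - b.2 * v.1) * (c.1 * v.2 - c.2 * v.1)) * k1 +
          ((a.1 * v.2 - a.2 * v.1) * (b.1 * u.2 - b.2 * u.1) * (c.1 * u.2 - c.2 * u.1) +
            (a.1 * u.2 - a.2 * u.1) * (b.1 * v.2 - b.2 * v.1) * (c.1 * u.2 - c.2 * u.1) +
            (a.1 * u.2 - a.2 * u.1) * (b.1 * u.2 - b.2 * u.1) * (c.1 * v.2 - c.2 * v.1)) * k2
      rw [h3, h4, mul_zero, mul_zero, sub_zero] at key
      exact (mul_eq_zero.1 key).resolve_left (pow_ne_zero 3 hD)
    · intro a b c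
      have key : br u v ^ 3 * G m a b c = (br a v * br b v * br c v) * G m u u u -
          (br a u * br b u * br c u) * G m v v v := by
        have k1 := huv u
        have k2 := huv v
        unfold G br at *
        linear_combination
          -((a.1 * v.2 - a.2 * v.1) * (b.1 * v.2 - b.2 * v.1) * (c.1 * u.2 - c.2 * u.1) +
            (a.1 * v.2 - a.2 * v.1) * (b.1 * u.2 - b.2 * u.1) * (c.1 * v.2 - c.2 * v.1) +
            (a.1 * u.2 - a.2 * u.1) * (b.1 * v.2 - b.2 * v.1) * (c.1 * v.2 - c.2 * v.1)) * k1 +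
          ((a.1 * v.2 - a.2 * v.1) * (b.1 * u.2 - b.2 * u.1) * (c.1 * u.2 - c.2 * u.1) +
            (a.1 * u.2 - a.2 * u.1) * (b.1 * v.2 - b.2 * v.1) * (c.1 * u.2 - c.2 * u.1) +
            (a.1 * u.2 - a.2 * u.1) * (b.1 * u.2 - b.2 * u.1) * (c.1 * v.2 - c.2 * v.1)) * k2
      field_simp
      linear_combination key

end Pool.Agent.H64.Hyp4
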