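import Mathlib

/-!
# Four points of the unit disc

`y i` are points of the open unit disc, `w i j` is the point of the unit circle on the ray from `y i`
through `y j`.  The products of the `w i j`, `j ≠ i`, are not all equal.
-/

set_option autoImplicit false

namespace Pool.Agent.H64.Hyp4

/-- the orientation of a triangle -/
def ori (p q r : ℂ) : ℝ := (q.re - p.re) * (r.im - p.im) - (q.im - p.im) * (r.re - p.re)

theorem ori_rot (p q r : ℂ) : ori q r p = ori p q r := by unfold ori; ring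

theorem ori_swap (p q r : ℂ) : ori q p r = -ori p q r := by unfold ori; ring

theorem ori_four (p q r s : ℂ) : ori p q r + ori p r s = ori p q s + ori q r s := by
  unfold ori; ring

theorem ori_line (p q a b : ℂ) (s : ℝ) :
    ori p q (a + s • (b - a)) = (1 - s) * ori p q a + s * ori p q b := by
  unfold ori
  simp only [Complex.add_re, Complex.add_im, Complex.real_smul, Complex.mul_re, Complex.mul_im,
    Complex.ofReal_re, Complex.ofReal_im, Complex.sub_re, Complex.sub_im]
  ring

theorem ori_chord (p q r : ℂ) (s t : ℝ) :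
    ori (p + s • (q - p)) (q + t • (p - q)) r = -((s + t - 1) * ori p q r) := by
  unfold ori
  simp only [Complex.add_re, Complex.add_im, Complex.real_smul, Complex.mul_re, Complex.mul_im,
    Complex.ofReal_re, Complex.ofReal_im, Complex.sub_re, Complex.sub_im]
  ring

/-- the point of the unit circle with angle `θ` from `w₀` -/
noncomputable def pt (w₀ : ℂ) (θ : ℝ) : ℂ := w₀ * Complex.exp (θ * Complex.I)

theorem exists_pt {w₀ r : ℂ} (h0 : ‖w₀‖ = 1) (hr : ‖r‖ = 1) :
    ∃ θ : ℝ, 0 ≤ θ ∧ θ < 2 * Real.pi ∧ r = pt w₀ θ := by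
  have hw : w₀ ≠ 0 := by
    intro h
    rw [h, norm_zero] at h0
    exact zero_ne_one h0
  have h1 : ‖r / w₀‖ = 1 := by rw [norm_div, h0, hr, div_one]
  have h2 : Complex.exp ((r / w₀).arg * Complex.I) = r / w₀ := by
    have := Complex.norm_mul_exp_arg_mul_I (r / w₀)
    rw [h1] at this
    simpa using this
  have hpi := Real.pi_pos
  have h3 := Complex.neg_pi_lt_arg (r / w₀)
  have h4 := Complex.arg_le_pi (r / w₀)
  by_cases h : 0 ≤ (r / w₀).arg
  · refine ⟨(r / w₀).arg, h, by linarith, ?_⟩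
    unfold pt
    rw [h2, mul_div_cancel₀ r hw]
  · push Not at h
    refine ⟨(r / w₀).arg + 2 * Real.pi, by linarith, by linarith, ?_⟩
    unfold pt
    have h5 : (((r / w₀).arg + 2 * Real.pi : ℝ) : ℂ) * Complex.I =
        (r / w₀).arg * Complex.I + 2 * Real.pi * Complex.I := by push_cast; ring
    rw [h5, Complex.exp_add, Complex.exp_two_pi_mul_I, mul_one, h2, mul_div_cancel₀ r hw]

theorem ori_pt {w₀ : ℂ} (h0 : ‖w₀‖ = 1) (α β γ : ℝ) :
    ori (pt w₀ α) (pt w₀ β) (pt w₀ γ) =
      4 * Real.sin ((β - α) / 2) * Real.sin ((γ - β) / 2) * Real.sin ((γ - α) / 2) := by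
  have hsq : w₀.re ^ 2 + w₀.im ^ 2 = 1 := by
    have := Complex.sq_norm w₀
    rw [h0, Complex.normSq_apply] at this
    linarith
  have h1 : ori (pt w₀ α) (pt w₀ β) (pt w₀ γ) =
      (Real.cos β - Real.cos α) * (Real.sin γ - Real.sin α) -
        (Real.sin β - Real.sin α) * (Real.cos γ - Real.cos α) := by
    unfold ori pt
    simp only [Complex.mul_re, Complex.mul_im, Complex.exp_ofReal_mul_I_re,
      Complex.exp_ofReal_mul_I_im]
    linear_combination ((Real.cos β - Real.cos α) * (Real.sin γ - Real.sin α) -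
        (Real.sin β - Real.sin α) * (Real.cos γ - Real.cos α)) * hsq
  rw [h1, Real.cos_sub_cos β α, Real.sin_sub_sin γ α, Real.sin_sub_sin β α, Real.cos_sub_cos γ α]
  have h2 : (γ - β) / 2 = (γ + α) / 2 - (β + α) / 2 := by ring
  rw [h2, Real.sin_sub]
  ring

/-- points on the negative side of a chord -/
theorem mid_of_neg {w₀ : ℂ} (h0 : ‖w₀‖ = 1) {α β γ : ℝ} (hα : 0 ≤ α) (hβ : β < 2 * Real.pi)
    (hγ0 : 0 ≤ γ) (hγ : γ < 2 * Real.pi) (hαβ : α < β)
    (h : ori (pt w₀ α) (pt w₀ β) (pt w₀ γ) < 0) : α < γ ∧ γ < β := by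
  rw [ori_pt h0] at h
  have h1 : 0 < Real.sin ((β - α) / 2) := Real.sin_pos_of_pos_of_lt_pi (by linarith) (by linarith)
  by_contra hcon
  rcases le_or_gt γ α with h2 | h2
  · have h3 : 0 ≤ Real.sin ((α - γ) / 2) :=
      Real.sin_nonneg_of_nonneg_of_le_pi (by linarith) (by linarith)
    have h4 : 0 ≤ Real.sin ((β - γ) / 2) :=
      Real.sin_nonneg_of_nonneg_of_le_pi (by linarith) (by linarith)
    have h5 : Real.sin ((γ - α) / 2) = -Real.sin ((α - γ) / 2) := by
      rw [← Real.sin_neg]; congr 1; ring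
    have h6 : Real.sin ((γ - β) / 2) = -Real.sin ((β - γ) / 2) := by
      rw [← Real.sin_neg]; congr 1; ring
    rw [h5, h6] at h
    have := mul_nonneg (mul_nonneg h1.le h4) h3
    linarith
  · have h3 : β ≤ γ := by
      by_contra h4
      push Not at h4
      exact hcon ⟨h2, h4⟩
    have h4 : 0 ≤ Real.sin ((γ - α) / 2) :=
      Real.sin_nonneg_of_nonneg_of_le_pi (by linarith) (by linarith)
    have h5 : 0 ≤ Real.sin ((γ - β) / 2) :=
      Real.sin_nonneg_of_nonneg_of_le_pi (by linarith) (by linarith)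
    have := mul_nonneg (mul_nonneg h1.le h5) h4
    linarith

/-- points on the positive side of a chord -/
theorem out_of_pos {w₀ : ℂ} (h0 : ‖w₀‖ = 1) {α β γ : ℝ} (hα : 0 ≤ α) (hβ : β < 2 * Real.pi)
    (hαβ : α < β)
    (h : 0 < ori (pt w₀ α) (pt w₀ β) (pt w₀ γ)) : γ < α ∨ β < γ := by
  rw [ori_pt h0] at h
  have h1 : 0 < Real.sin ((β - α) / 2) := Real.sin_pos_of_pos_of_lt_pi (by linarith) (by linarith)
  by_contra hcon
  push Not at hcon
  obtain ⟨h2, h3⟩ := hcon
  have h4 : 0 ≤ Real.sin ((γ - α) / 2) :=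
    Real.sin_nonneg_of_nonneg_of_le_pi (by linarith) (by linarith)
  have h5 : 0 ≤ Real.sin ((β - γ) / 2) :=
    Real.sin_nonneg_of_nonneg_of_le_pi (by linarith) (by linarith)
  have h6 : Real.sin ((γ - β) / 2) = -Real.sin ((β - γ) / 2) := by
    rw [← Real.sin_neg]; congr 1; ring
  rw [h6] at h
  have := mul_nonneg (mul_nonneg h1.le h5) h4
  linarith

/-- Angles with the same endpoint differ by a multiple of `2 π`. -/
theorem exists_int {w₀ c : ℂ} (hw : w₀ ≠ 0) {a₁ a₂ a₃ b₁ b₂ b₃ : ℝ}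
    (ha : pt w₀ a₁ * pt w₀ a₂ * pt w₀ a₃ = c) (hb : pt w₀ b₁ * pt w₀ b₂ * pt w₀ b₃ = c) :
    ∃ n : ℤ, b₁ + b₂ + b₃ = a₁ + a₂ + a₃ + n * (2 * Real.pi) := by
  rw [← hb] at ha
  unfold pt at ha
  have h1 : w₀ ^ 3 * Complex.exp (((a₁ + a₂ + a₃ : ℝ) : ℂ) * Complex.I) =
      w₀ ^ 3 * Complex.exp (((b₁ + b₂ + b₃ : ℝ) : ℂ) * Complex.I) := by
    have e1 : (((a₁ + a₂ + a₃ : ℝ) : ℂ) * Complex.I) = a₁ * Complex.I + a₂ * Complex.I +
        a₃ * Complex.I := by push_cast; ring
    have e2 : (((b₁ + b₂ + b₃ : ℝ) : ℂ) * Complex.I) = b₁ * Complex.I + b₂ * Complex.I +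
        b₃ * Complex.I := by push_cast; ring
    rw [e1, e2, Complex.exp_add, Complex.exp_add, Complex.exp_add, Complex.exp_add]
    linear_combination ha
  have h2 := mul_left_cancel₀ (pow_ne_zero 3 hw) h1
  rw [Complex.exp_eq_exp_iff_exists_int] at h2
  obtain ⟨n, hn⟩ := h2
  refine ⟨-n, ?_⟩
  have h3 : (((a₁ + a₂ + a₃ : ℝ) : ℂ)) * Complex.I =
      (((b₁ + b₂ + b₃ + n * (2 * Real.pi) : ℝ) : ℂ)) * Complex.I := by
    rw [hn]; push_cast; ring
  have h4 := mul_right_cancel₀ Complex.I_ne_zero h3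
  have h5 : a₁ + a₂ + a₃ = b₁ + b₂ + b₃ + n * (2 * Real.pi) := by exact_mod_cast h4
  push_cast
  linarith

/-- Points of the disc and the endpoints of their rays, with equal products. -/
structure Cfg (y : Fin 4 → ℂ) (w : Fin 4 → Fin 4 → ℂ) (c : ℂ) : Prop where
  unit : ∀ i j, i ≠ j → ‖w i j‖ = 1
  ray : ∀ i j, i ≠ j → ∃ s : ℝ, 1 < s ∧ w i j = y i + s • (y j - y i)
  prod : ∀ i j k l, i ≠ j → i ≠ k → i ≠ l → j ≠ k → j ≠ l → k ≠ l → w i j * w i k * w i l = c

section

variable {y : Fin 4 → ℂ} {w : Fin 4 → Fin 4 → ℂ} {c : ℂ}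

/-- the endpoint of a ray from `i` or `j` is on the side of its target -/
theorem Cfg.same (H : Cfg y w c) {i j k : Fin 4} (hik : i ≠ k) (hjk : j ≠ k) :
    (∃ s : ℝ, 0 < s ∧ ori (y i) (y j) (w i k) = s * ori (y i) (y j) (y k)) ∧
      ∃ s : ℝ, 0 < s ∧ ori (y i) (y j) (w j k) = s * ori (y i) (y j) (y k) := by
  obtain ⟨s, hs, h1⟩ := H.ray i k hik
  obtain ⟨t, ht, h2⟩ := H.ray j k hjk
  refine ⟨⟨s, by linarith, ?_⟩, ⟨t, by linarith, ?_⟩⟩
  · rw [h1, ori_line]
    have : ori (y i) (y j) (y i) = 0 := by unfold ori; ring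
    rw [this]; ring
  · rw [h2, ori_line]
    have : ori (y i) (y j) (y j) = 0 := by unfold ori; ring
    rw [this]; ring

/-- the endpoint of a ray from `k` through `i` or `j` is on the other side -/
theorem Cfg.opp (H : Cfg y w c) {i j k : Fin 4} (hik : i ≠ k) (hjk : j ≠ k) :
    (∃ s : ℝ, 0 < s ∧ ori (y i) (y j) (w k i) = -(s * ori (y i) (y j) (y k))) ∧
      ∃ s : ℝ, 0 < s ∧ ori (y i) (y j) (w k j) = -(s * ori (y i) (y j) (y k)) := by
  obtain ⟨s, hs, h1⟩ := H.ray k i hik.symm
  obtain ⟨t, ht, h2⟩ := H.ray k j hjk.symm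
  refine ⟨⟨s - 1, by linarith, ?_⟩, ⟨t - 1, by linarith, ?_⟩⟩
  · rw [h1, ori_line]
    have : ori (y i) (y j) (y i) = 0 := by unfold ori; ring
    rw [this]; ring
  · rw [h2, ori_line]
    have : ori (y i) (y j) (y j) = 0 := by unfold ori; ring
    rw [this]; ring

theorem Cfg.chord (H : Cfg y w c) {i j : Fin 4} (hij : i ≠ j) (r : ℂ) :
    ∃ s : ℝ, 0 < s ∧ ori (w i j) (w j i) r = -(s * ori (y i) (y j) r) := by
  obtain ⟨s, hs, h1⟩ := H.ray i j hij
  obtain ⟨t, ht, h2⟩ := H.ray j i hij.symm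
  refine ⟨s + t - 1, by linarith, ?_⟩
  rw [h1, h2, ori_chord]

/-- Angles of the endpoints, and the two sides of a chord. -/
theorem Cfg.exists_ang (H : Cfg y w c) {i₀ j₀ : Fin 4} (h₀ : i₀ ≠ j₀) :
    ∃ a : Fin 4 → Fin 4 → ℝ, a i₀ j₀ = 0 ∧ (∀ i j, 0 ≤ a i j) ∧ (∀ i j, a i j < 2 * Real.pi) ∧
      (∀ i j k, i ≠ j → i ≠ k → j ≠ k → a i j < a j i → 0 < ori (y i) (y j) (y k) →
        (a i j < a i k ∧ a i k < a j i) ∧ (a i j < a j k ∧ a j k < a j i) ∧
        (a k i < a i j ∨ a j i < a k i) ∧ (a k j < a i j ∨ a j i < a k j)) ∧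
      (∀ i j k, i ≠ j → i ≠ k → j ≠ k → a i j < a j i → ori (y i) (y j) (y k) < 0 →
        (a i k < a i j ∨ a j i < a i k) ∧ (a j k < a i j ∨ a j i < a j k) ∧
        (a i j < a k i ∧ a k i < a j i) ∧ (a i j < a k j ∧ a k j < a j i)) ∧
      (∀ i j k, i ≠ j → ori (y i) (y j) (y k) ≠ 0 → a i j ≠ a j i) ∧
      (∀ i j k l i' j' k' l', i ≠ j → i ≠ k → i ≠ l → j ≠ k → j ≠ l → k ≠ l →
        i' ≠ j' → i' ≠ k' → i' ≠ l' → j' ≠ k' → j' ≠ l' → k' ≠ l' →
        ∃ n : ℤ, a i' j' + a i' k' + a i' l' = a i j + a i k + a i l + n * (2 * Real.pi)) := by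
  have hw0 := H.unit i₀ j₀ h₀
  have hw0' : w i₀ j₀ ≠ 0 := by
    intro h
    rw [h, norm_zero] at hw0
    exact zero_ne_one hw0
  have hpi := Real.pi_pos
  have hex : ∀ i j, ∃ θ : ℝ, 0 ≤ θ ∧ θ < 2 * Real.pi ∧ (i ≠ j → w i j = pt (w i₀ j₀) θ) := by
    intro i j
    by_cases hij : i = j
    · exact ⟨0, le_refl _, by linarith, fun h => absurd hij h⟩
    · obtain ⟨θ, h1, h2, h3⟩ := exists_pt hw0 (H.unit i j hij)
      exact ⟨θ, h1, h2, fun _ => h3⟩
  choose b hb0 hb1 hb using hex
  have hpt0 : pt (w i₀ j₀) 0 = w i₀ j₀ := by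
    unfold pt
    simp
  let a : Fin 4 → Fin 4 → ℝ := fun i j => if i = i₀ ∧ j = j₀ then 0 else b i j
  have ha : ∀ i j, i ≠ j → w i j = pt (w i₀ j₀) (a i j) := by
    intro i j hij
    by_cases h : i = i₀ ∧ j = j₀
    · have : a i j = 0 := if_pos h
      rw [this, hpt0, h.1, h.2]
    · have : a i j = b i j := if_neg h
      rw [this]
      exact hb i j hij
  have ha0 : ∀ i j, 0 ≤ a i j := by
    intro i j
    by_cases h : i = i₀ ∧ j = j₀
    · have : a i j = 0 := if_pos h
      rw [this]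
    · have : a i j = b i j := if_neg h
      rw [this]
      exact hb0 i j
  have ha1 : ∀ i j, a i j < 2 * Real.pi := by
    intro i j
    by_cases h : i = i₀ ∧ j = j₀
    · have : a i j = 0 := if_pos h
      rw [this]; linarith
    · have : a i j = b i j := if_neg h
      rw [this]
      exact hb1 i j
  have hP : ∀ i j k l, i ≠ j → k ≠ l → a i j < a j i → 0 < ori (y i) (y j) (w k l) →
      a i j < a k l ∧ a k l < a j i := by
    intro i j k l hij hkl hlt hpos
    obtain ⟨s, hs, h1⟩ := H.chord hij (w k l)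
    have h2 : ori (pt (w i₀ j₀) (a i j)) (pt (w i₀ j₀) (a j i)) (pt (w i₀ j₀) (a k l)) < 0 := by
      rw [← ha i j hij, ← ha j i hij.symm, ← ha k l hkl, h1]
      have := mul_pos hs hpos
      linarith
    exact mid_of_neg hw0 (ha0 i j) (ha1 j i) (ha0 k l) (ha1 k l) hlt h2
  have hN : ∀ i j k l, i ≠ j → k ≠ l → a i j < a j i → ori (y i) (y j) (w k l) < 0 →
      a k l < a i j ∨ a j i < a k l := by
    intro i j k l hij hkl hlt hneg
    obtain ⟨s, hs, h1⟩ := H.chord hij (w k l)
    have h2 : 0 < ori (pt (w i₀ j₀) (a i j)) (pt (w i₀ j₀) (a j i)) (pt (w i₀ j₀) (a k l)) := by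
      rw [← ha i j hij, ← ha j i hij.symm, ← ha k l hkl, h1]
      have := mul_neg_of_pos_of_neg hs hneg
      linarith
    exact out_of_pos hw0 (ha0 i j) (ha1 j i) hlt h2
  refine ⟨a, if_pos ⟨rfl, rfl⟩, ha0, ha1, ?_, ?_, ?_, ?_⟩
  · intro i j k hij hik hjk hlt hpos
    obtain ⟨⟨s1, hs1, e1⟩, ⟨s2, hs2, e2⟩⟩ := H.same (i := i) (j := j) hik hjk
    obtain ⟨⟨s3, hs3, e3⟩, ⟨s4, hs4, e4⟩⟩ := H.opp (i := i) (j := j) hik hjk
    refine ⟨hP i j i k hij hik hlt ?_, hP i j j k hij hjk hlt ?_, hN i j k i hij hik.symm hlt ?_,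
      hN i j k j hij hjk.symm hlt ?_⟩
    · rw [e1]; exact mul_pos hs1 hpos
    · rw [e2]; exact mul_pos hs2 hpos
    · rw [e3]; have := mul_pos hs3 hpos; linarith
    · rw [e4]; have := mul_pos hs4 hpos; linarith
  · intro i j k hij hik hjk hlt hneg
    obtain ⟨⟨s1, hs1, e1⟩, ⟨s2, hs2, e2⟩⟩ := H.same (i := i) (j := j) hik hjk
    obtain ⟨⟨s3, hs3, e3⟩, ⟨s4, hs4, e4⟩⟩ := H.opp (i := i) (j := j) hik hjk
    refine ⟨hN i j i k hij hik hlt ?_, hN i j j k hij hjk hlt ?_, hP i j k i hij hik.symm hlt ?_,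
      hP i j k j hij hjk.symm hlt ?_⟩
    · rw [e1]; exact mul_neg_of_pos_of_neg hs1 hneg
    · rw [e2]; exact mul_neg_of_pos_of_neg hs2 hneg
    · rw [e3]; have := mul_neg_of_pos_of_neg hs3 hneg; linarith
    · rw [e4]; have := mul_neg_of_pos_of_neg hs4 hneg; linarith
  · intro i j k hij hk h
    have h1 : w i j = w j i := by rw [ha i j hij, ha j i hij.symm, h]
    obtain ⟨s, hs, h2⟩ := H.chord hij (y k)
    have h3 : ori (w i j) (w j i) (y k) = 0 := by rw [h1]; unfold ori; ring
    rw [h3] at h2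
    exact hk ((mul_eq_zero.1 (neg_eq_zero.1 h2.symm)).resolve_left hs.ne')
  · intro i j k l i' j' k' l' h1 h2 h3 h4 h5 h6 h1' h2' h3' h4' h5' h6'
    have e1 := H.prod i j k l h1 h2 h3 h4 h5 h6
    have e2 := H.prod i' j' k' l' h1' h2' h3' h4' h5' h6'
    rw [ha i j h1, ha i k h2, ha i l h3] at e1
    rw [ha i' j' h1', ha i' k' h2', ha i' l' h3'] at e2
    exact exists_int hw0' e1 e2

/-- convex position -/
theorem Cfg.convex (H : Cfg y w c) {i j k l : Fin 4} (hij : i ≠ j) (hik : i ≠ k) (hil : i ≠ l)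
    (hjk : j ≠ k) (hjl : j ≠ l) (hkl : k ≠ l)
    (h1 : 0 < ori (y i) (y j) (y k)) (h2 : 0 < ori (y j) (y k) (y l))
    (h3 : 0 < ori (y k) (y l) (y i)) (h4 : 0 < ori (y l) (y i) (y j)) : False := by
  obtain ⟨a, a0, hge, hlt, hpos, hneg, hne, hint⟩ := H.exists_ang hij
  have hpi := Real.pi_pos
  have q1 := hge i k
  have q2 := hge i l
  have r12 : 0 ≤ a j i := hge j i
  have c12 : a i j < a j i :=
    lt_of_le_of_ne (by rw [a0]; exact r12) (hne i j k hij h1.ne')
  obtain ⟨⟨p1, p2⟩, ⟨p3, p4⟩, p5, p6⟩ := hpos i j k hij hik hjk c12 h1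
  obtain ⟨⟨p7, p8⟩, ⟨p9, p10⟩, p11, p12⟩ := hpos i j l hij hil hjl c12 (by
    rw [← ori_rot, ← ori_rot]; rw [ori_rot, ori_rot, ← ori_rot, ← ori_rot]
    have := ori_rot (y l) (y i) (y j)
    rw [← this] at h4
    rw [ori_rot (y l) (y i) (y j)] at h4
    unfold ori at h4 ⊢
    linarith)
  have b1 : a j i < a k i := p5.resolve_left (by have := hge k i; rw [a0]; exact not_lt.2 this)
  have b2 : a j i < a k j := p6.resolve_left (by have := hge k j; rw [a0]; exact not_lt.2 this)
  have b3 : a j i < a l i := p11.resolve_left (by have := hge l i; rw [a0]; exact not_lt.2 this)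
  have b4 : a j i < a l j := p12.resolve_left (by have := hge l j; rw [a0]; exact not_lt.2 this)
  have c13 : a i k < a k i := by linarith
  obtain ⟨-, d1, ⟨d2, d3⟩, ⟨d4, d5⟩⟩ := hneg i k j hik hij hjk.symm c13 (by
    unfold ori at h1 ⊢; linarith)
  obtain ⟨⟨e1, e2⟩, ⟨e3, e4⟩, e5, e6⟩ := hpos i k l hik hil hkl c13 (by
    unfold ori at h3 ⊢; linarith)
  have b5 : a k i < a l i := e5.resolve_left (by intro h; linarith)
  have c24 : a j l < a l j := by linarith
  obtain ⟨-, -, -, f1⟩ := hpos j l i hjl hij.symm hil.symm c24 (by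
    unfold ori at h4 ⊢; linarith)
  have b6 : a i l < a j l := f1.resolve_right (by intro h; linarith)
  obtain ⟨-, g1, ⟨g2, g3⟩, ⟨g4, g5⟩⟩ := hneg j l k hjl hjk hkl.symm c24 (by
    unfold ori at h2 ⊢; linarith)
  obtain ⟨n1, hn1⟩ := hint i j k l j k l i hij hik hil hjk hjl hkl hjk hjl hij.symm hkl
    hik.symm hil.symm
  obtain ⟨n2, hn2⟩ := hint j k l i k l i j hjk hjl hij.symm hkl hik.symm hil.symm hkl hik.symm
    hjk.symm hil.symm hjl.symm hij
  obtain ⟨n3, hn3⟩ := hint k l i j l i j k hkl hik.symm hjk.symm hil.symm hjl.symm hij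
    hil.symm hjl.symm hkl.symm hij hik hjk
  have k1 : (0 : ℝ) < n1 := by
    have : 0 < (n1 : ℝ) * (2 * Real.pi) := by rw [a0] at hn1; linarith
    exact pos_of_mul_pos_left this (by linarith)
  have k2 : (0 : ℝ) < n2 := by
    have : 0 < (n2 : ℝ) * (2 * Real.pi) := by linarith
    exact pos_of_mul_pos_left this (by linarith)
  have m1 : (1 : ℝ) ≤ n1 := by
    have : (0 : ℤ) < n1 := by exact_mod_cast k1
    exact_mod_cast this
  have m2 : (1 : ℝ) ≤ n2 := by
    have : (0 : ℤ) < n2 := by exact_mod_cast k2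
    exact_mod_cast this
  have t1 := mul_le_mul_of_nonneg_right m1 (by linarith : (0 : ℝ) ≤ 2 * Real.pi)
  have t2 := mul_le_mul_of_nonneg_right m2 (by linarith : (0 : ℝ) ≤ 2 * Real.pi)
  have u1 := hlt l i
  have u2 := hlt l j
  have u3 := hlt l k
  have u4 := hge l k
  have u5 := hlt k l
  rcases g1 with g1 | g1
  · have b7 : a l k < a i k := e6.resolve_right (by intro h; linarith)
    have k3 : (-1 : ℝ) < n3 := by
      have : 0 < ((n3 : ℝ) + 1) * (2 * Real.pi) := by nlinarith
      have := pos_of_mul_pos_left this (by linarith)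
      linarith
    have m3 : (0 : ℝ) ≤ n3 := by
      have : (-1 : ℤ) < n3 := by exact_mod_cast k3
      have : (0 : ℤ) ≤ n3 := by omega
      exact_mod_cast this
    have t3 := mul_nonneg m3 (by linarith : (0 : ℝ) ≤ 2 * Real.pi)
    linarith
  · have k3 : (0 : ℝ) < n3 := by
      have : 0 < (n3 : ℝ) * (2 * Real.pi) := by linarith
      exact pos_of_mul_pos_left this (by linarith)
    have m3 : (1 : ℝ) ≤ n3 := by
      have : (0 : ℤ) < n3 := by exact_mod_cast k3
      exact_mod_cast this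
    have t3 := mul_le_mul_of_nonneg_right m3 (by linarith : (0 : ℝ) ≤ 2 * Real.pi)
    linarith

/-- the fourth point inside the triangle of the others -/
theorem Cfg.inside (H : Cfg y w c) {i j k l : Fin 4} (hij : i ≠ j) (hik : i ≠ k) (hil : i ≠ l)
    (hjk : j ≠ k) (hjl : j ≠ l) (hkl : k ≠ l)
    (h1 : 0 < ori (y i) (y j) (y k)) (h2 : 0 < ori (y i) (y j) (y l))
    (h3 : 0 < ori (y j) (y k) (y l)) (h4 : 0 < ori (y k) (y i) (y l)) : False := by
  obtain ⟨a, a0, hge, hlt, hpos, hneg, hne, hint⟩ := H.exists_ang hij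
  have hpi := Real.pi_pos
  have c12 : a i j < a j i :=
    lt_of_le_of_ne (by rw [a0]; exact hge j i) (hne i j k hij h1.ne')
  obtain ⟨⟨p1, p2⟩, ⟨p3, p4⟩, p5, p6⟩ := hpos i j k hij hik hjk c12 h1
  obtain ⟨⟨p7, p8⟩, ⟨p9, p10⟩, p11, p12⟩ := hpos i j l hij hil hjl c12 h2
  have b1 : a j i < a k i := p5.resolve_left (by have := hge k i; rw [a0]; exact not_lt.2 this)
  have b2 : a j i < a k j := p6.resolve_left (by have := hge k j; rw [a0]; exact not_lt.2 this)
  have b3 : a j i < a l i := p11.resolve_left (by have := hge l i; rw [a0]; exact not_lt.2 this)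
  have b4 : a j i < a l j := p12.resolve_left (by have := hge l j; rw [a0]; exact not_lt.2 this)
  have c13 : a i k < a k i := by linarith
  obtain ⟨-, d1, ⟨d2, d3⟩, ⟨d4, d5⟩⟩ := hneg i k j hik hij hjk.symm c13 (by
    unfold ori at h1 ⊢; linarith)
  obtain ⟨e1, e2, ⟨e3, e4⟩, ⟨e5, e6⟩⟩ := hneg i k l hik hil hkl c13 (by
    unfold ori at h4 ⊢; linarith)
  have b5 : a i l < a i k := e1.resolve_right (by intro h; linarith)
  have c23 : a j k < a k j := by linarith
  obtain ⟨-, ⟨f1, f2⟩, -, -⟩ := hpos j k i hjk hij.symm hik.symm c23 (by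
    unfold ori at h1 ⊢; linarith)
  obtain ⟨⟨g1, g2⟩, ⟨g3, g4⟩, g5, g6⟩ := hpos j k l hjk hjl hkl c23 h3
  have b6 : a k j < a l j := g5.resolve_left (by intro h; linarith)
  have b7 : a l k < a j k := g6.resolve_right (by intro h; linarith)
  have b8 : a k i < a k l := e2.resolve_left (by intro h; linarith)
  obtain ⟨n1, hn1⟩ := hint i j k l j k l i hij hik hil hjk hjl hkl hjk hjl hij.symm hkl
    hik.symm hil.symm
  obtain ⟨n2, hn2⟩ := hint j k l i k l i j hjk hjl hij.symm hkl hik.symm hil.symm hkl hik.symm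
    hjk.symm hil.symm hjl.symm hij
  obtain ⟨n3, hn3⟩ := hint j k l i l i j k hjk hjl hij.symm hkl hik.symm hil.symm
    hil.symm hjl.symm hkl.symm hij hik hjk
  have hl1 := hge i k
  have hl2 := hge i l
  have hl3 := hlt k i
  have hl4 := hlt k l
  have hl5 := hlt k j
  have hl6 := hlt l j
  have k1 : (0 : ℝ) < n1 := by
    have : 0 < (n1 : ℝ) * (2 * Real.pi) := by rw [a0] at hn1; linarith
    exact pos_of_mul_pos_left this (by linarith)
  have k2 : (0 : ℝ) < n2 := by
    have : 0 < (n2 : ℝ) * (2 * Real.pi) := by linarith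
    exact pos_of_mul_pos_left this (by linarith)
  have k3 : (n1 : ℝ) + n2 < 3 := by
    have : 0 < (3 - ((n1 : ℝ) + n2)) * (2 * Real.pi) := by nlinarith
    have := pos_of_mul_pos_left this (by linarith)
    linarith
  have m1 : (n1 : ℝ) = 1 ∧ (n2 : ℝ) = 1 := by
    have i1 : (0 : ℤ) < n1 := by exact_mod_cast k1
    have i2 : (0 : ℤ) < n2 := by exact_mod_cast k2
    have i3 : n1 + n2 < 3 := by exact_mod_cast k3
    have j1 : n1 = 1 := by omega
    have j2 : n2 = 1 := by omega
    exact ⟨by exact_mod_cast j1, by exact_mod_cast j2⟩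
  rw [m1.1] at hn1
  rw [m1.2] at hn2
  have k4 : (0 : ℝ) < n3 := by
    have : 0 < (n3 : ℝ) * (2 * Real.pi) := by rw [a0] at hn1; linarith
    exact pos_of_mul_pos_left this (by linarith)
  have k5 : (n3 : ℝ) < 1 := by
    have : 0 < (1 - (n3 : ℝ)) * (2 * Real.pi) := by rw [a0] at hn1; nlinarith
    have := pos_of_mul_pos_left this (by linarith)
    linarith
  have i4 : (0 : ℤ) < n3 := by exact_mod_cast k4
  have i5 : n3 < (1 : ℤ) := by exact_mod_cast k5
  omega

/-- There is no such configuration in general position. -/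
theorem Cfg.false (H : Cfg y w c)
    (hgp : ∀ i j k : Fin 4, i ≠ j → i ≠ k → j ≠ k → ori (y i) (y j) (y k) ≠ 0) : False := by
  have h0 := ori_four (y 0) (y 1) (y 2) (y 3)
  rcases lt_or_gt_of_ne (hgp 0 1 2 (by decide) (by decide) (by decide)) with h012 | h012 <;>
  rcases lt_or_gt_of_ne (hgp 0 1 3 (by decide) (by decide) (by decide)) with h013 | h013 <;>
  rcases lt_or_gt_of_ne (hgp 0 2 3 (by decide) (by decide) (by decide)) with h023 | h023 <;>
  rcases lt_or_gt_of_ne (hgp 1 2 3 (by decide) (by decide) (by decide)) with h123 | h123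
  · exact H.convex (i := 0) (j := 3) (k := 2) (l := 1) (by decide) (by decide) (by decide) (by decide) (by decide)
      (by decide) (by unfold ori at *; linarith) (by unfold ori at *; linarith) (by unfold ori at *; linarith)
      (by unfold ori at *; linarith)
  · exact H.inside (i := 0) (j := 3) (k := 1) (l := 2) (by decide) (by decide) (by decide) (by decide) (by decide)
      (by decide) (by unfold ori at *; linarith) (by unfold ori at *; linarith) (by unfold ori at *; linarith)
      (by unfold ori at *; linarith)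
  · exact H.inside (i := 0) (j := 2) (k := 1) (l := 3) (by decide) (by decide) (by decide) (by decide) (by decide)
      (by decide) (by unfold ori at *; linarith) (by unfold ori at *; linarith) (by unfold ori at *; linarith)
      (by unfold ori at *; linarith)
  · exact H.convex (i := 0) (j := 2) (k := 3) (l := 1) (by decide) (by decide) (by decide) (by decide) (by decide)
      (by decide) (by unfold ori at *; linarith) (by unfold ori at *; linarith) (by unfold ori at *; linarith)
      (by unfold ori at *; linarith)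
  · exact H.inside (i := 1) (j := 3) (k := 2) (l := 0) (by decide) (by decide) (by decide) (by decide) (by decide)
      (by decide) (by unfold ori at *; linarith) (by unfold ori at *; linarith) (by unfold ori at *; linarith)
      (by unfold ori at *; linarith)
  · linarith
  · exact H.convex (i := 0) (j := 2) (k := 1) (l := 3) (by decide) (by decide) (by decide) (by decide) (by decide)
      (by decide) (by unfold ori at *; linarith) (by unfold ori at *; linarith) (by unfold ori at *; linarith)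
      (by unfold ori at *; linarith)
  · exact H.inside (i := 0) (j := 2) (k := 3) (l := 1) (by decide) (by decide) (by decide) (by decide) (by decide)
      (by decide) (by unfold ori at *; linarith) (by unfold ori at *; linarith) (by unfold ori at *; linarith)
      (by unfold ori at *; linarith)
  · exact H.inside (i := 0) (j := 3) (k := 2) (l := 1) (by decide) (by decide) (by decide) (by decide) (by decide)
      (by decide) (by unfold ori at *; linarith) (by unfold ori at *; linarith) (by unfold ori at *; linarith)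
      (by unfold ori at *; linarith)
  · exact H.convex (i := 0) (j := 3) (k := 1) (l := 2) (by decide) (by decide) (by decide) (by decide) (by decide)
      (by decide) (by unfold ori at *; linarith) (by unfold ori at *; linarith) (by unfold ori at *; linarith)
      (by unfold ori at *; linarith)
  · linarith
  · exact H.inside (i := 1) (j := 2) (k := 3) (l := 0) (by decide) (by decide) (by decide) (by decide) (by decide)
      (by decide) (by unfold ori at *; linarith) (by unfold ori at *; linarith) (by unfold ori at *; linarith)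
      (by unfold ori at *; linarith)
  · exact H.convex (i := 0) (j := 1) (k := 3) (l := 2) (by decide) (by decide) (by decide) (by decide) (by decide)
      (by decide) (by unfold ori at *; linarith) (by unfold ori at *; linarith) (by unfold ori at *; linarith)
      (by unfold ori at *; linarith)
  · exact H.inside (i := 0) (j := 1) (k := 2) (l := 3) (by decide) (by decide) (by decide) (by decide) (by decide)
      (by decide) (by unfold ori at *; linarith) (by unfold ori at *; linarith) (by unfold ori at *; linarith)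
      (by unfold ori at *; linarith)
  · exact H.inside (i := 0) (j := 1) (k := 3) (l := 2) (by decide) (by decide) (by decide) (by decide) (by decide)
      (by decide) (by unfold ori at *; linarith) (by unfold ori at *; linarith) (by unfold ori at *; linarith)
      (by unfold ori at *; linarith)
  · exact H.convex (i := 0) (j := 1) (k := 2) (l := 3) (by decide) (by decide) (by decide) (by decide) (by decide)
      (by decide) (by unfold ori at *; linarith) (by unfold ori at *; linarith) (by unfold ori at *; linarith)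
      (by unfold ori at *; linarith)

end

end Pool.Agent.H64.Hyp4
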