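import Pool.Agent.H64.Hyp4.Alg
import Pool.Agent.H64.Hyp4.Planar

/-!
# The extremal argument
-/

set_option autoImplicit false

namespace Pool.Agent.H64.Hyp4

open Pool.Agent.Results.MP_1fedf0_gt.CollinearPlusOne

/-! ### Real inequalities -/

theorem mono_line {n₁ m₁ n₂ m₂ t : ℝ} (ht : 1 < t) (h : n₂ * m₁ ≤ n₁ * m₂) :
    (n₁ + t * (n₂ - n₁)) * m₂ ≤ n₂ * (m₁ + t * (m₂ - m₁)) := by
  nlinarith [mul_nonneg (sub_nonneg.2 ht.le) (sub_nonneg.2 h)]

/-- the additive extremal argument -/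
theorem additive (F M : Fin 4 → ℝ) (t : Fin 4 → Fin 4 → ℝ) (hM : ∀ i, 0 < M i)
    (ht : ∀ i j, i ≠ j → 1 < t i j)
    (hQ : ∀ i j, i ≠ j → 0 < M i + t i j * (M j - M i))
    (hsum : ∀ i, ∑ j ∈ Finset.univ.erase i,
      (F i + t i j * (F j - F i)) / (M i + t i j * (M j - M i)) = 0) : ∀ i, F i = 0 := by
  obtain ⟨a, -, ha⟩ := Finset.exists_max_image Finset.univ (fun i => F i / M i) ⟨0, Finset.mem_univ _⟩
  obtain ⟨b, -, hb⟩ := Finset.exists_min_image Finset.univ (fun i => F i / M i) ⟨0, Finset.mem_univ _⟩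
  have h1 : 0 ≤ ∑ j ∈ Finset.univ.erase a, F j / M j := by
    rw [← hsum a]
    refine Finset.sum_le_sum fun j hj => ?_
    have hne : a ≠ j := (Finset.ne_of_mem_erase hj).symm
    rw [div_le_div_iff₀ (hQ a j hne) (hM j)]
    have h2 := ha j (Finset.mem_univ j)
    rw [div_le_div_iff₀ (hM j) (hM a)] at h2
    exact mono_line (ht a j hne) h2
  have h2 : ∑ j ∈ Finset.univ.erase b, F j / M j ≤ 0 := by
    rw [← hsum b]
    refine Finset.sum_le_sum fun j hj => ?_
    have hne : b ≠ j := (Finset.ne_of_mem_erase hj).symm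
    rw [div_le_div_iff₀ (hM j) (hQ b j hne)]
    have h2 := hb j (Finset.mem_univ j)
    rw [div_le_div_iff₀ (hM b) (hM j)] at h2
    have h3 := mono_line (n₁ := -F b) (m₁ := M b) (n₂ := -F j) (m₂ := M j) (ht b j hne)
      (by linarith)
    linarith
  have e1 := Finset.add_sum_erase Finset.univ (fun i => F i / M i) (Finset.mem_univ a)
  have e2 := Finset.add_sum_erase Finset.univ (fun i => F i / M i) (Finset.mem_univ b)
  have h3 : F a / M a ≤ F b / M b := by
    linarith
  have h4 : ∀ i, F i / M i = F a / M a := fun i =>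
    le_antisymm (ha i (Finset.mem_univ i)) (h3.trans (hb i (Finset.mem_univ i)))
  have h5 : ∑ i, F i / M i = 4 * (F a / M a) := by
    rw [Finset.sum_congr rfl fun i _ => h4 i]
    simp
  have h6 : F a / M a = 0 := by
    have := h4 b
    linarith
  intro i
  have h7 := h4 i
  rw [h6, div_eq_zero_iff] at h7
  exact h7.resolve_right (hM i).ne'

/-- the multiplicative extremal argument -/
theorem multiplicative (N M : Fin 4 → ℝ) (t : Fin 4 → Fin 4 → ℝ) (hN : ∀ i, 0 < N i)
    (hM : ∀ i, 0 < M i) (ht : ∀ i j, i ≠ j → 1 < t i j)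
    (hP : ∀ i j, i ≠ j → 0 ≤ N i + t i j * (N j - N i))
    (hQ : ∀ i j, i ≠ j → 0 ≤ M i + t i j * (M j - M i))
    (hPQ : ∀ i j, i ≠ j → N i + t i j * (N j - N i) = 0 → M i + t i j * (M j - M i) = 0 → False)
    (a b : ℝ) (ha : 0 ≤ a) (hb : 0 ≤ b) (hab : a = 0 → b = 0 → False)
    (h : ∀ i, a * ∏ j ∈ Finset.univ.erase i, (N i + t i j * (N j - N i)) =
      b * ∏ j ∈ Finset.univ.erase i, (M i + t i j * (M j - M i))) :
    0 < a ∧ 0 < b ∧ ∃ r : ℝ, 0 < r ∧ ∀ i, N i = r * M i := by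
  obtain ⟨k, -, hk⟩ := Finset.exists_max_image Finset.univ (fun i => N i / M i) ⟨0, Finset.mem_univ _⟩
  obtain ⟨l, -, hl⟩ := Finset.exists_min_image Finset.univ (fun i => N i / M i) ⟨0, Finset.mem_univ _⟩
  have hρ : ∀ i, 0 < N i / M i := fun i => div_pos (hN i) (hM i)
  set T : ℝ := ∏ i, N i / M i with hT
  have hTpos : 0 < T := Finset.prod_pos fun i _ => hρ i
  have e1 := Finset.mul_prod_erase Finset.univ (fun i => N i / M i) (Finset.mem_univ k)
  have e2 := Finset.mul_prod_erase Finset.univ (fun i => N i / M i) (Finset.mem_univ l)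
  have mk : ∀ j, k ≠ j → (N k + t k j * (N j - N k)) * M j ≤ N j * (M k + t k j * (M j - M k)) := by
    intro j hne
    have h2 := hk j (Finset.mem_univ j)
    rw [div_le_div_iff₀ (hM j) (hM k)] at h2
    exact mono_line (ht k j hne) h2
  have ml : ∀ j, l ≠ j → N j * (M l + t l j * (M j - M l)) ≤ (N l + t l j * (N j - N l)) * M j := by
    intro j hne
    have h2 := hl j (Finset.mem_univ j)
    rw [div_le_div_iff₀ (hM l) (hM j)] at h2
    have h3 := mono_line (n₁ := -N l) (m₁ := M l) (n₂ := -N j) (m₂ := M j) (ht l j hne)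
      (by linarith)
    linarith
  have qk : ∀ j, k ≠ j → 0 < M k + t k j * (M j - M k) := by
    intro j hne
    refine lt_of_le_of_ne (hQ k j hne) fun h0 => ?_
    have h2 := mk j hne
    rw [← h0, mul_zero] at h2
    have h3 : N k + t k j * (N j - N k) ≤ 0 := nonpos_of_mul_nonpos_left h2 (hM j)
    exact hPQ k j hne (le_antisymm h3 (hP k j hne)) h0.symm
  have pl : ∀ j, l ≠ j → 0 < N l + t l j * (N j - N l) := by
    intro j hne
    refine lt_of_le_of_ne (hP l j hne) fun h0 => ?_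
    have h2 := ml j hne
    rw [← h0, zero_mul] at h2
    have h3 : M l + t l j * (M j - M l) ≤ 0 := nonpos_of_mul_nonpos_right h2 (hN j)
    exact hPQ l j hne h0.symm (le_antisymm h3 (hQ l j hne))
  have h1 : b * (N k / M k) ≤ a * T := by
    have hQp : 0 < ∏ j ∈ Finset.univ.erase k, (M k + t k j * (M j - M k)) :=
      Finset.prod_pos fun j hj => qk j (Finset.ne_of_mem_erase hj).symm
    have h2 : ∏ j ∈ Finset.univ.erase k, (N k + t k j * (N j - N k)) ≤
        (∏ j ∈ Finset.univ.erase k, N j / M j) *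
          ∏ j ∈ Finset.univ.erase k, (M k + t k j * (M j - M k)) := by
      rw [← Finset.prod_mul_distrib]
      refine Finset.prod_le_prod (fun j hj => hP k j (Finset.ne_of_mem_erase hj).symm) fun j hj => ?_
      have h3 := mk j (Finset.ne_of_mem_erase hj).symm
      rw [div_mul_eq_mul_div, le_div_iff₀ (hM j)]
      exact h3
    have h3 := mul_le_mul_of_nonneg_left h2 ha
    rw [h k] at h3
    have h4 : b ≤ a * ∏ j ∈ Finset.univ.erase k, N j / M j := by
      rw [← mul_assoc] at h3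
      exact le_of_mul_le_mul_right h3 hQp
    calc b * (N k / M k) ≤ (a * ∏ j ∈ Finset.univ.erase k, N j / M j) * (N k / M k) :=
          mul_le_mul_of_nonneg_right h4 (hρ k).le
      _ = a * T := by rw [hT, ← e1]; ring
  have h2 : a * T ≤ b * (N l / M l) := by
    have hPp : 0 < ∏ j ∈ Finset.univ.erase l, (N l + t l j * (N j - N l)) :=
      Finset.prod_pos fun j hj => pl j (Finset.ne_of_mem_erase hj).symm
    have h2 : (∏ j ∈ Finset.univ.erase l, N j / M j) *
          ∏ j ∈ Finset.univ.erase l, (M l + t l j * (M j - M l)) ≤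
        ∏ j ∈ Finset.univ.erase l, (N l + t l j * (N j - N l)) := by
      rw [← Finset.prod_mul_distrib]
      refine Finset.prod_le_prod (fun j hj => mul_nonneg (hρ j).le
        (hQ l j (Finset.ne_of_mem_erase hj).symm)) fun j hj => ?_
      have h3 := ml j (Finset.ne_of_mem_erase hj).symm
      rw [div_mul_eq_mul_div, div_le_iff₀ (hM j)]
      exact h3
    have h3 := mul_le_mul_of_nonneg_left h2 hb
    have h4 : a * ∏ j ∈ Finset.univ.erase l, N j / M j ≤ b := by
      have h5 : (a * ∏ j ∈ Finset.univ.erase l, N j / M j) *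
          ∏ j ∈ Finset.univ.erase l, (N l + t l j * (N j - N l)) ≤
          b * ∏ j ∈ Finset.univ.erase l, (N l + t l j * (N j - N l)) := by
        calc (a * ∏ j ∈ Finset.univ.erase l, N j / M j) *
              ∏ j ∈ Finset.univ.erase l, (N l + t l j * (N j - N l))
            = (∏ j ∈ Finset.univ.erase l, N j / M j) *
              (a * ∏ j ∈ Finset.univ.erase l, (N l + t l j * (N j - N l))) := by ring
          _ = b * ((∏ j ∈ Finset.univ.erase l, N j / M j) *
              ∏ j ∈ Finset.univ.erase l, (M l + t l j * (M j - M l))) := by rw [h l]; ring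
          _ ≤ _ := h3
      exact le_of_mul_le_mul_right h5 hPp
    calc a * T = (a * ∏ j ∈ Finset.univ.erase l, N j / M j) * (N l / M l) := by rw [hT, ← e2]; ring
      _ ≤ b * (N l / M l) := mul_le_mul_of_nonneg_right h4 (hρ l).le
  have hbpos : 0 < b := by
    refine lt_of_le_of_ne hb fun h0 => ?_
    rw [← h0, zero_mul] at h2
    have h3 : a ≤ 0 := nonpos_of_mul_nonpos_left h2 hTpos
    exact hab (le_antisymm h3 ha) h0.symm
  have hapos : 0 < a := by
    have h3 : 0 < a * T := lt_of_lt_of_le (mul_pos hbpos (hρ k)) h1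
    exact pos_of_mul_pos_left h3 hTpos.le
  refine ⟨hapos, hbpos, N k / M k, hρ k, fun i => ?_⟩
  have h3 : N k / M k ≤ N l / M l := le_of_mul_le_mul_left (h1.trans h2) hbpos
  have h4 : N i / M i = N k / M k :=
    le_antisymm (hk i (Finset.mem_univ i)) (h3.trans (hl i (Finset.mem_univ i)))
  rw [← h4, div_mul_cancel₀ _ (hM i).ne']

/-- a ray from a point of the open disc meets the unit circle once -/
theorem unique_root {y d : ℂ} (hy : ‖y‖ < 1) {s s' : ℝ} (hs : 0 < s) (hs' : 0 < s')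
    (h : ‖y + s • d‖ = 1) (h' : ‖y + s' • d‖ = 1) : s = s' := by
  have k0 : y.re * y.re + y.im * y.im < 1 := by
    rw [← Complex.normSq_apply, Complex.normSq_eq_norm_sq]
    have := norm_nonneg y
    nlinarith
  have k : ∀ σ : ℝ, ‖y + σ • d‖ = 1 →
      (y.re + σ * d.re) * (y.re + σ * d.re) + (y.im + σ * d.im) * (y.im + σ * d.im) = 1 := by
    intro σ hσ
    have h1 := Complex.normSq_eq_norm_sq (y + σ • d)
    rw [hσ, Complex.normSq_apply] at h1
    simpa using h1
  have k1 := k s h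
  have k2 := k s' h'
  by_contra hne
  have k3 : (s - s') * ((d.re ^ 2 + d.im ^ 2) * (s + s') + 2 * (y.re * d.re + y.im * d.im)) = 0 := by
    linear_combination k1 - k2
  have k4 := (mul_eq_zero.1 k3).resolve_left (sub_ne_zero.2 hne)
  have k5 : y.re * y.re + y.im * y.im - 1 = (d.re ^ 2 + d.im ^ 2) * (s * s') := by
    linear_combination k1 - s * k4
  have k6 : 0 ≤ (d.re ^ 2 + d.im ^ 2) * (s * s') := by positivity
  linarith

/-! ### Spinors -/

theorem spin_ne (q : Fin 3 → ℝ) : spin q ≠ 0 := by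
  unfold spin
  split_ifs
  · intro h
    have := congrArg Prod.fst h
    simp at this
  · intro h
    have := congrArg Prod.snd h
    simp at this

theorem br_par {a b u : ℂ × ℂ} (hu : u ≠ 0) (ha : br a u = 0) (hb : br b u = 0) : br a b = 0 := by
  unfold br at *
  by_cases h : u.1 = 0
  · have h2 : u.2 ≠ 0 := fun h2 => hu (Prod.ext h h2)
    rw [h] at ha hb
    have a1 : a.1 = 0 := by
      have : a.1 * u.2 = 0 := by linear_combination ha
      exact (mul_eq_zero.1 this).resolve_right h2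
    have b1 : b.1 = 0 := by
      have : b.1 * u.2 = 0 := by linear_combination hb
      exact (mul_eq_zero.1 this).resolve_right h2
    rw [a1, b1]; ring
  · apply mul_left_cancel₀ h
    linear_combination b.1 * ha - a.1 * hb

theorem br_indep {a u v : ℂ × ℂ} (ha : a ≠ 0) (huv : br u v ≠ 0) (h1 : br a u = 0)
    (h2 : br a v = 0) : False := by
  unfold br at *
  apply ha
  refine Prod.ext ?_ ?_
  · apply mul_left_cancel₀ huv
    simp only [Prod.fst_zero]
    linear_combination v.1 * (-h1) + u.1 * h2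
  · apply mul_left_cancel₀ huv
    simp only [Prod.snd_zero]
    linear_combination v.2 * (-h1) + u.2 * h2

theorem br_ne {u v : ℂ × ℂ} (huv : br u v ≠ 0) : u ≠ 0 ∧ v ≠ 0 := by
  constructor
  · rintro rfl
    apply huv
    simp [br]
  · rintro rfl
    apply huv
    simp [br]

/-- a common factor -/
theorem exists_kappa {q : Fin 3 → ℝ} (hq : ∑ k, q k ^ 2 = 1) : ∃ κ : ℝ, 0 < κ ∧ ∀ α γ : ℂ × ℂ,
    br (spin q) α * (starRingEnd ℂ) (br (spin q) γ) = κ * Lam α γ q := by
  obtain ⟨κ, hκ, h1, h2, h3, h4⟩ := spin_herm hq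
  refine ⟨κ, hκ, fun α γ => ?_⟩
  unfold br Lam
  simp only [map_sub, map_mul]
  linear_combination (α.2 * (starRingEnd ℂ) γ.2) * h1 + (α.1 * (starRingEnd ℂ) γ.1) * h2
    - (α.2 * (starRingEnd ℂ) γ.1) * h3 - (α.1 * (starRingEnd ℂ) γ.2) * h4

theorem conj_Lam (α γ : ℂ × ℂ) (q : Fin 3 → ℝ) :
    (starRingEnd ℂ) (Lam α γ q) = Lam γ α q := by
  unfold Lam
  simp only [map_add, map_sub, map_mul, map_one, Complex.conj_ofReal, Complex.conj_I,
    Complex.conj_conj]
  ring

/-- the norm of a spinor at a point of the ball -/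
noncomputable def Nm (v : ℂ × ℂ) (q : Fin 3 → ℝ) : ℝ := (Lam v v q).re

theorem Lam_self (v : ℂ × ℂ) (q : Fin 3 → ℝ) : Lam v v q = (Nm v q : ℂ) := by
  have h := conj_Lam v v q
  rw [Complex.conj_eq_iff_re] at h
  exact h.symm

theorem Lam_det (u v : ℂ × ℂ) (q : Fin 3 → ℝ) :
    Lam u u q * Lam v v q - Lam v u q * Lam u v q =
      ((1 - ∑ k, q k ^ 2 : ℝ) : ℂ) * (br u v * (starRingEnd ℂ) (br u v)) := by
  unfold Lam br
  simp only [Fin.sum_univ_three, map_sub, map_mul]
  push_cast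
  linear_combination (((q 1 : ℂ) ^ 2) * ((u.1 * v.2 - u.2 * v.1) *
    ((starRingEnd ℂ) u.1 * (starRingEnd ℂ) v.2 - (starRingEnd ℂ) u.2 * (starRingEnd ℂ) v.1))) *
    Complex.I_sq

theorem normSq_Lam (u v : ℂ × ℂ) (q : Fin 3 → ℝ) :
    Complex.normSq (Lam v u q) = Nm u q * Nm v q - (1 - ∑ k, q k ^ 2) * Complex.normSq (br u v) := by
  have h := Lam_det u v q
  rw [← conj_Lam v u q, Complex.mul_conj, Complex.mul_conj, Lam_self, Lam_self] at h
  have h2 : Nm u q * Nm v q - Complex.normSq (Lam v u q) =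
      (1 - ∑ k, q k ^ 2) * Complex.normSq (br u v) := by exact_mod_cast h
  linarith

theorem Nm_line (v : ℂ × ℂ) (x y : Fin 3 → ℝ) (t : ℝ) :
    Nm v (x + t • (y - x)) = Nm v x + t * (Nm v y - Nm v x) := by
  unfold Nm
  rw [Lam_line]
  simp

theorem Nm_nonneg (v : ℂ × ℂ) {q : Fin 3 → ℝ} (hq : ∑ k, q k ^ 2 = 1) : 0 ≤ Nm v q := by
  obtain ⟨κ, hκ, h⟩ := exists_kappa hq
  have h1 := h v v
  rw [Complex.mul_conj, Lam_self] at h1
  have h2 : Complex.normSq (br (spin q) v) = κ * Nm v q := by exact_mod_cast h1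
  by_contra hcon
  push Not at hcon
  have h3 := mul_neg_of_pos_of_neg hκ hcon
  have h4 := Complex.normSq_nonneg (br (spin q) v)
  linarith

theorem Nm_pos {v : ℂ × ℂ} (hv : v ≠ 0) {q : Fin 3 → ℝ} (hq : ∑ k, q k ^ 2 < 1) : 0 < Nm v q := by
  simp only [Fin.sum_univ_three] at hq
  have hval : Nm v q = (1 + q 2) * (v.2.re ^ 2 + v.2.im ^ 2) -
      2 * (q 0 * (v.2.re * v.1.re + v.2.im * v.1.im) - q 1 * (v.2.im * v.1.re - v.2.re * v.1.im)) +
      (1 - q 2) * (v.1.re ^ 2 + v.1.im ^ 2) := by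
    unfold Nm Lam
    simp only [Complex.add_re, Complex.sub_re, Complex.mul_re, Complex.mul_im, Complex.add_im,
      Complex.sub_im, Complex.one_re, Complex.one_im, Complex.ofReal_re, Complex.ofReal_im,
      Complex.conj_re, Complex.conj_im, Complex.I_re, Complex.I_im]
    ring
  have hP : 0 < 1 + q 2 := by nlinarith [sq_nonneg (q 0), sq_nonneg (q 1)]
  have key : (1 + q 2) * Nm v q =
      ((1 + q 2) * v.2.re - (q 0 * v.1.re + q 1 * v.1.im)) ^ 2 +
      ((1 + q 2) * v.2.im - (q 0 * v.1.im - q 1 * v.1.re)) ^ 2 +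
      (1 - (q 0 ^ 2 + q 1 ^ 2 + q 2 ^ 2)) * (v.1.re ^ 2 + v.1.im ^ 2) := by
    rw [hval]
    ring
  have hd : 0 < 1 - (q 0 ^ 2 + q 1 ^ 2 + q 2 ^ 2) := by linarith
  by_cases h1 : v.1 = 0
  · have h2 : v.2 ≠ 0 := fun h2 => hv (Prod.ext h1 h2)
    have h3 : 0 < v.2.re ^ 2 + v.2.im ^ 2 := by
      have := Complex.normSq_pos.2 h2
      rw [Complex.normSq_apply] at this
      nlinarith
    rw [hval, h1]
    simp only [Complex.zero_re, Complex.zero_im]
    have := mul_pos hP h3
    nlinarith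
  · have h3 : 0 < v.1.re ^ 2 + v.1.im ^ 2 := by
      have := Complex.normSq_pos.2 h1
      rw [Complex.normSq_apply] at this
      nlinarith
    have h4 := mul_pos hd h3
    have h5 : 0 < (1 + q 2) * Nm v q := by
      rw [key]
      positivity
    exact pos_of_mul_pos_right h5 hP.le

end Pool.Agent.H64.Hyp4
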